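import Pool.Agent.H91.RF.TargetsR

/-! Module AVD: planar limits which are too fast avoid the values of a component which is not
pulled. -/

open MeasureTheory Set Filter Topology Metric
open Pool.Agent.H91.RD Pool.Agent.H91.RF

namespace Pool.Agent.H58.RF

lemma ent_tr (hTR : T_TR) {N : ℕ} {f : ℝ → ℝ} {w : ℝ → E N → ℝ} (hw : Ent f w)
    (t0 : ℝ) (x0 : E N) : Ent f (fun t x => w (t0 + t) (x0 + x)) := by
  refine ⟨fun a => ?_, fun t x => hw.2 _ _⟩
  have h := hTR N f (a + t0) t0 x0 w (hw.1 _)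
  simpa using h

lemma limAt_tr {N : ℕ} {u : ℝ → E N → ℝ} {tn : ℕ → ℝ} {xn : ℕ → E N} {w : ℝ → E N → ℝ}
    (h : LimAt u tn xn w) (t0 : ℝ) (x0 : E N) :
    LimAt u (fun n => tn n + t0) (fun n => xn n + x0) (fun t x => w (t0 + t) (x0 + x)) := by
  intro R hR
  have hR' : 0 < R + |t0| + ‖x0‖ := by
    have := abs_nonneg t0
    have := norm_nonneg x0
    linarith
  have h1 := h _ hR'
  have h2 := h1.comp (fun p : ℝ × E N => (t0 + p.1, x0 + p.2))
  have hsub : Icc (-R) R ×ˢ closedBall (0 : E N) R ⊆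
      (fun p : ℝ × E N => (t0 + p.1, x0 + p.2)) ⁻¹'
        (Icc (-(R + |t0| + ‖x0‖)) (R + |t0| + ‖x0‖) ×ˢ closedBall (0 : E N) (R + |t0| + ‖x0‖)) := by
    rintro ⟨s, y⟩ ⟨hs, hy⟩
    rw [mem_closedBall_zero_iff] at hy
    have ha := abs_nonneg t0
    have hb := norm_nonneg x0
    have hc := le_abs_self t0
    have hd := neg_abs_le t0
    refine ⟨⟨?_, ?_⟩, ?_⟩
    · simp only at hs ⊢
      linarith [hs.1]
    · simp only at hs ⊢
      linarith [hs.2]
    · simp only [mem_closedBall_zero_iff]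
      have := norm_add_le x0 y
      simp only at hy
      linarith
  have h3 := h2.mono hsub
  have e1 : (fun (n : ℕ) (p : ℝ × E N) => u (tn n + t0 + p.1) (xn n + x0 + p.2)) =
      fun (n : ℕ) => (fun (p : ℝ × E N) => u (tn n + p.1) (xn n + p.2)) ∘
        (fun p : ℝ × E N => (t0 + p.1, x0 + p.2)) := by
    funext n p
    simp only [Function.comp, add_assoc]
  show TendstoUniformlyOn (fun (n : ℕ) (p : ℝ × E N) => u (tn n + t0 + p.1) (xn n + x0 + p.2))
    _ _ _
  rw [e1]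
  exact h3

theorem AVD (hTR : T_TR) (hTWG : T_TWG) (hTWL : T_TWL) (hNOTI : T_NOTI) (hCONV : T_CONV) :
    T_AVD := by
  intro N f K U u J b c y hstg hter j hj h4 R hR tn xn w n htn hent hlim hn hpl hsp hup t0 ht0 x0
  have hcpos : 0 < c j := (hter.ext j hj).cpos
  have hsq : 1 < √(1 + R ^ 2) := by
    rw [Real.lt_sqrt (by norm_num)]
    nlinarith
  have hcn : c j < c j * √(1 + R ^ 2) := by
    nlinarith
  obtain ⟨kk, hk1, hk2, H⟩ := hNOTI N f K J b c y hstg.N1 hstg.reac hstg.lip hter j hj h4 _ hcn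
  by_cases hle : w t0 x0 ≤ b j
  · exact Or.inl hle
  right
  refine le_antisymm (hup t0 ht0 x0) ?_
  refine le_of_forall_pos_le_add fun ε hε => ?_
  obtain ⟨ℓ, R1, C, T, hℓ1, hℓ2, hℓ3, hR1, hC, hTw⟩ :=
    hTWG N f K U u J b c y hstg hter j hj h4 kk hk1 hk2 ε hε
  set v : ℝ → E N → ℝ := fun t x => w (t0 + t) (x0 + x) with hv
  have hentv : Ent f v := ent_tr hTR hent t0 x0
  have hlimv := limAt_tr hlim t0 x0
  have htnv : Tendsto (fun n => tn n + t0) atTop atTop := tendsto_atTop_add_const_right _ _ htn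
  have hTwE : TwE v (b j) kk ℓ R1 C :=
    hTWL N f K U u (b j) kk ℓ R1 C T hstg (by linarith) hR1 hC hTw _ _ v htnv hentv hlimv
  obtain ⟨hc2, heq, -⟩ := hCONV N f K U u _ _ v hstg.reac hstg.lip hstg.sol htnv hentv hlimv
  have hfd : ∀ t x, fderiv ℝ (v t) x = fderiv ℝ (w (t0 + t)) (x0 + x) := by
    intro t x
    exact fderiv_comp_add_left x0
  have hgr : ∀ t x, gr v t x = gr w (t0 + t) (x0 + x) := by
    intro t x
    unfold gr
    rw [hfd]
  have hdt : ∀ t x, dt v t x = dt w (t0 + t) (x0 + x) := by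
    intro t x
    unfold dt
    exact deriv_comp_const_add (fun s => w s (x0 + x)) t0 t
  have hcon := H v n ℓ R1 C hn hentv hc2 heq
    (fun t ht x => by
      rw [hfd, hgr]
      exact hpl (t0 + t) (by linarith) (x0 + x))
    (fun t ht x => by
      rw [hgr, hdt]
      exact hsp (t0 + t) (by linarith) (x0 + x))
    (fun t ht x => hup (t0 + t) (by linarith) (x0 + x)) hℓ2 hℓ3 hR1 hC hTwE
  have hv0 : v 0 0 = w t0 x0 := by
    simp only [hv, add_zero]
  rw [hv0] at hcon
  by_contra hcc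
  push Not at hcc
  exact hle (hcon (by linarith))

end Pool.Agent.H58.RF
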