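import Pool.Agent.H91.RF.TargetsA
import Pool.Agent.H91.RF.TargetsR

/-! Module FULL: assembly of the full answer. -/

open MeasureTheory Set Filter Topology Metric
open Pool.Agent.H91.RD Pool.Agent.H91.RF

namespace Pool.Agent.H58.RF

theorem FULL (hLIP : T_LIP) (hTER : T_TER) (hIGN : T_IGN) (hFIN : T_FIN)
    (hALLC : T_ALLC) (hLIMF : T_LIMF) : T_FULL := by
  intro N f hN hf
  obtain ⟨K, hK⟩ := hLIP f hf
  refine hFIN N f hN hf ?_
  intro ρ hρ hinv U u hU hfin hC hsol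
  obtain ⟨J, b, c, y, hT⟩ := hTER N f ρ hN hf hρ hinv
  obtain ⟨⟨D, hD0, hD⟩, hig⟩ := hIGN N f K ρ U u hK hρ hinv hfin hsol
  have hstg : Stg f K U u := by
    refine ⟨hN, hf, hK, hU, hC, hsol, ?_⟩
    intro η hη R hR
    obtain ⟨t1, ht1, h1⟩ := hig η hη R hR
    refine ⟨D + 1, by linarith, t1, ht1, ?_⟩
    intro y' hy'
    obtain ⟨p, hp, hdist⟩ := hD y' hy'
    refine ⟨p, by linarith, ?_⟩
    intro t ht z hz
    exact h1 t ht hp z hz
  exact hLIMF N f K U u J b c y hstg hT (hALLC N f K U u J b c y hstg hT)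

end Pool.Agent.H58.RF
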