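import Pool.Agent.H91.RF.TargetsA

/-! Module MA: lower bound behind the speed `c_j`. -/

open MeasureTheory Set Filter Topology Metric
open Pool.Agent.H91.RD Pool.Agent.H91.RF

namespace Pool.Agent.H58.RF

lemma ter_le_one {f : ℝ → ℝ} {J : ℕ} {b c : ℕ → ℝ} {y : ℕ → ℝ → ℝ} (h : Ter f J b c y)
    {i : ℕ} (hi : i ≤ J) : b i ≤ 1 := by
  have h1 : ∀ k, ∀ i, i + k = J → b i ≤ 1 := by
    intro k
    induction k with
    | zero =>
      intro i hi
      rw [add_zero] at hi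
      rw [hi, h.bJ]
    | succ k ih =>
      intro i hi
      exact (h.lt i (by omega)).le.trans (ih (i + 1) (by omega))
  exact h1 (J - i) i (by omega)

lemma solM_cls {N : ℕ} {f : ℝ → ℝ} {U : Set (E N)} {u : ℝ → E N → ℝ} (h : SolM f U u) :
    Cls f u ∧ ∀ t > 0, ∀ x, 0 ≤ u t x ∧ u t x ≤ 1 := by
  refine ⟨⟨h.sol.bdd, h.sol.c2, h.sol.dt, h.sol.cont, h.sol.eqn⟩, fun t ht x => ?_⟩
  have h1 := h.rng t (le_of_lt ht) x
  unfold lift0 at h1
  rwa [if_neg (not_le.2 ht)] at h1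

theorem MA (hEXPJ : T_EXPJ) : T_MA := by
  intro N f K U u J b c y hS hT j hj ε hε
  obtain ⟨ℓ, L, R0, hℓ1, hℓ2, hL, hR0, hexp⟩ := hEXPJ N f K J b c y hS.N1 hS.reac hS.lip hT j hj
    (ε / 4) (by positivity)
  have hb1 : b (j + 1) ≤ 1 := ter_le_one hT (by omega)
  obtain ⟨D, hD, t1, ht1, hig⟩ := hS.ignites (1 - ℓ) (by linarith) R0 hR0
  obtain ⟨hcls, hrng⟩ := solM_cls hS.sol
  set Cst : ℝ := 1 + D - R0 + L + (c j - ε / 4) * t1 with hCst
  refine ⟨max t1 (Cst / (3 * ε / 4)), lt_max_of_lt_left ht1, fun t ht x hx => ?_⟩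
  have ht2 : t1 ≤ t := (le_max_left _ _).trans ht
  have ht3 : Cst ≤ 3 * ε / 4 * t := by
    have h1 : Cst / (3 * ε / 4) ≤ t := (le_max_right _ _).trans ht
    rw [div_le_iff₀ (by positivity)] at h1
    linarith
  obtain ⟨y0, hy0, hxy0⟩ := (infDist_lt_iff hS.ne).1 (lt_add_one (infDist x U))
  obtain ⟨p, hp1, hp2⟩ := hig y0 hy0
  have h1 := hexp u hcls hrng t1 ht1 p R0 le_rfl (fun z hz => by
    have := hp2 t1 le_rfl z hz
    linarith) (t - t1) (by linarith) x (by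
    have h2 : dist x p ≤ dist x y0 + dist y0 p := dist_triangle _ _ _
    have h3 : R0 - L + (c j - ε / 4) * (t - t1) =
        R0 - L - (c j - ε / 4) * t1 + (c j - ε) * t + 3 * ε / 4 * t := by ring
    rw [h3]
    linarith)
  rw [add_sub_cancel] at h1
  linarith

end Pool.Agent.H58.RF
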