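import Pool.Agent.H91.RF.TargetsA

/-! Module MB: upper bound ahead of the speed `c_j`. -/

open MeasureTheory Set Filter Topology Metric
open Pool.Agent.H29.TF (hk P)
open Pool.Agent.H91.RD Pool.Agent.H91.RF

namespace Pool.Agent.H58.RF

lemma mild_zero {N : ℕ} {f : ℝ → ℝ} (h0 : f 0 = 0) : Mild f 0 (fun (_ : ℝ) (_ : E N) => (0 : ℝ)) := by
  refine ⟨⟨0, fun t _ x => by simp⟩, measurable_const, continuousOn_const, ?_⟩
  intro s t _ _ x
  have h1 : ∀ τ : ℝ, P τ (fun _ : E N => (0 : ℝ)) x = 0 := by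
    intro τ
    unfold P
    simp
  simp only [h0, h1, intervalIntegral.integral_zero, add_zero]

/-- the linear upper bound -/
lemma lin_bd (hTAIL : T_TAIL) (hCMP : T_CMP) {N : ℕ} {f : ℝ → ℝ} {K : ℝ} {U : Set (E N)}
    {u : ℝ → E N → ℝ} (hL : Lip f K) (hS : SolM f U u) {t : ℝ} (ht : 0 < t) (x : E N) :
    u t x ≤ Real.exp (K * t) *
      ((1 / 2 : ℝ) ^ (-(N : ℝ) / 2) * Real.exp (-((1 - 1 / 2) * infDist x U ^ 2 / (4 * t)))) := by
  have h1 := hCMP N f K K 0 0 t (lift0 U u) (fun _ _ => 0) hL le_rfl ht hS.mild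
    (mild_zero hL.f0) (by
      intro r _ y hy
      have := hL.lip (lift0 U u r y) 0
      rw [sub_zero, abs_of_pos hy] at this
      rw [sub_zero]
      exact (le_abs_self _).trans this) x
  have h2 : lift0 U u t x = u t x := by
    unfold lift0
    rw [if_neg (not_le.2 ht)]
  have h3 : (fun y => max (lift0 U u 0 y - 0) 0) = chi U := by
    funext y
    have h4 : lift0 U u 0 = chi U := by
      unfold lift0
      rw [if_pos le_rfl]
    rw [h4, sub_zero]
    unfold chi
    by_cases hy : y ∈ U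
    · rw [indicator_of_mem hy]
      simp
    · rw [indicator_of_notMem hy]
      simp
  rw [h2, h3, sub_zero, sub_zero] at h1
  refine h1.trans (mul_le_mul_of_nonneg_left ?_ (Real.exp_pos _).le)
  refine hTAIL N (1 / 2) t (infDist x U) (by norm_num) (by norm_num) ht infDist_nonneg x (chi U)
    ?_ ?_ ?_
  · unfold chi
    exact (measurable_const.indicator hS.meas).aestronglyMeasurable
  · intro y
    unfold chi
    by_cases hy : y ∈ U
    · rw [indicator_of_mem hy]
      norm_num
    · rw [indicator_of_notMem hy]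
      norm_num
  · intro y hy
    unfold chi
    rw [indicator_of_notMem]
    intro hyU
    exact absurd (infDist_le_dist_of_mem hyU) (not_le.2 hy)

lemma ter_nonneg {f : ℝ → ℝ} {J : ℕ} {b c : ℕ → ℝ} {y : ℕ → ℝ → ℝ} (h : Ter f J b c y) :
    ∀ i, i ≤ J → 0 ≤ b i := by
  intro i
  induction i with
  | zero =>
    intro _
    rw [h.b0]
  | succ i ih =>
    intro hi
    exact (ih (by omega)).trans (h.lt i (by omega)).le

lemma exp_small {A r ε : ℝ} (hr : 0 < r) (hε : 0 < ε) :
    ∃ T : ℝ, ∀ t ≥ T, A * Real.exp (-(r * t)) ≤ ε := by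
  have h1 : Tendsto (fun t : ℝ => A * Real.exp (-(r * t))) atTop (𝓝 (A * 0)) := by
    refine Tendsto.const_mul _ ?_
    refine Real.tendsto_exp_atBot.comp ?_
    exact tendsto_neg_atTop_atBot.comp (tendsto_id.const_mul_atTop hr)
  rw [mul_zero] at h1
  exact eventually_atTop.1 (h1.eventually (Iic_mem_nhds hε))

theorem MB (hBQ : T_BQ) (hSUPS : T_SUPS) (hTAIL : T_TAIL) (hCMP : T_CMP) : T_MB := by
  intro N f K U u J b c y hS hT
  have step : ∀ j < J, (j + 1 < J → ∀ ε > 0, ∃ T > 0, ∀ t ≥ T, ∀ x,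
      (c (j + 1) + ε) * t ≤ infDist x U → u t x ≤ b (j + 1) + ε) →
      ∀ ε > 0, ∃ T > 0, ∀ t ≥ T, ∀ x, (c j + ε) * t ≤ infDist x U → u t x ≤ b j + ε := by
    intro j hj hnext ε0 hε0
    have hcj : 0 < c j := (hT.ext j hj).cpos
    have hbj : 0 ≤ b j := ter_nonneg hT j hj.le
    have hK : 0 < K := hS.lip.K0
    set ε := min ε0 (c j) with hε
    have hεp : 0 < ε := lt_min hε0 hcj
    have hεc : ε ≤ c j := min_le_right _ _
    have hεe : ε ≤ ε0 := min_le_left _ _
    set σ := ε / 8 with hσ
    have hσp : 0 < σ := by positivity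
    obtain ⟨m, C, Λ, q, hm, hC, hΛ, hq2, hqd, hqb, hq0, hq1, -, hq3, hq4, -⟩ :=
      hSUPS f K J b c y hS.reac hS.lip hT j hj σ hσp
    set M : ℝ := 8 * (K + 1) with hM
    have hMp : 0 < M := by positivity
    obtain ⟨T1, hT1, hbq⟩ := hBQ N f K U u J b c y hS hT j hj hnext σ m C Λ q hσp hm hC hΛ hq2 hqd
      hqb hq0 hq1 hq3 σ hσp M hMp
    have hr : 0 < (c j / 2 - σ) * (3 * ε / 4) := by
      have : 0 < c j / 2 - σ := by
        rw [hσ]
        linarith
      positivity
    obtain ⟨T2, hT2⟩ := exp_small (A := C) hr (half_pos hεp)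
    obtain ⟨T3, hT3⟩ := exp_small (A := 1) hMp (half_pos hεp)
    obtain ⟨T4, hT4⟩ := exp_small (A := (1 / 2 : ℝ) ^ (-(N : ℝ) / 2)) one_pos hεp
    have hanti : StrictAnti q := strictAnti_of_deriv_neg hqd
    refine ⟨max T1 (max T2 (max T3 T4)), lt_max_of_lt_left hT1, fun t ht x hx => ?_⟩
    have ht1 : T1 ≤ t := (le_max_left _ _).trans ht
    have ht2 : T2 ≤ t := ((le_max_left _ _).trans (le_max_right _ _)).trans ht
    have ht3 : T3 ≤ t := (((le_max_left _ _).trans (le_max_right _ _)).trans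
      (le_max_right _ _)).trans ht
    have ht4 : T4 ≤ t := (((le_max_right _ _).trans (le_max_right _ _)).trans
      (le_max_right _ _)).trans ht
    have htp : 0 < t := hT1.trans_le ht1
    have hx2 : (c j + ε) * t ≤ infDist x U := by
      refine le_trans ?_ hx
      exact mul_le_mul_of_nonneg_right (by linarith) htp.le
    rcases le_total (infDist x U) (M * t) with hd | hd
    · have h1 := hbq t ht1 x (by
        refine le_trans (mul_le_mul_of_nonneg_right ?_ htp.le) hx2
        rw [hσ]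
        linarith) hd
      have h2 : 3 * ε / 4 * t ≤ infDist x U - (c j + σ + σ) * t := by
        have : (c j + σ + σ) * t = (c j + ε) * t - 3 * ε / 4 * t := by
          rw [hσ]
          ring
        rw [this]
        linarith
      have h3 := hanti.antitone h2
      have h4 := hq4 (3 * ε / 4 * t) (by positivity)
      have h5 := hT2 t ht2
      have h6 := hT3 t ht3
      rw [one_mul] at h6
      have h7 : (c j / 2 - σ) * (3 * ε / 4 * t) = (c j / 2 - σ) * (3 * ε / 4) * t := by ring
      rw [h7] at h4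
      linarith
    · have h1 := lin_bd hTAIL hCMP hS.lip hS.sol htp x
      have h2 : Real.exp (K * t) *
          ((1 / 2 : ℝ) ^ (-(N : ℝ) / 2) * Real.exp (-((1 - 1 / 2) * infDist x U ^ 2 / (4 * t)))) ≤
          (1 / 2 : ℝ) ^ (-(N : ℝ) / 2) * Real.exp (-(1 * t)) := by
        have h3 : Real.exp (K * t) *
          ((1 / 2 : ℝ) ^ (-(N : ℝ) / 2) * Real.exp (-((1 - 1 / 2) * infDist x U ^ 2 / (4 * t)))) =
          (1 / 2 : ℝ) ^ (-(N : ℝ) / 2) *
            Real.exp (K * t + -((1 - 1 / 2) * infDist x U ^ 2 / (4 * t))) := by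
          rw [Real.exp_add]
          ring
        rw [h3]
        refine mul_le_mul_of_nonneg_left (Real.exp_le_exp.2 ?_) (Real.rpow_nonneg (by norm_num) _)
        have h4 : (M * t) ^ 2 ≤ infDist x U ^ 2 := pow_le_pow_left₀ (by positivity) hd 2
        have h5 : (K + 1) * t ≤ (1 - 1 / 2) * infDist x U ^ 2 / (4 * t) := by
          rw [le_div_iff₀ (by positivity)]
          have h6 : (K + 1) * t * (4 * t) ≤ (1 - 1 / 2) * (M * t) ^ 2 := by
            have h7 : (1 - 1 / 2) * (M * t) ^ 2 - (K + 1) * t * (4 * t) =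
                t ^ 2 * ((K + 1) * (32 * (K + 1) - 4)) := by
              rw [hM]
              ring
            have h8 : 0 ≤ t ^ 2 * ((K + 1) * (32 * (K + 1) - 4)) := by
              have : 0 ≤ 32 * (K + 1) - 4 := by linarith
              positivity
            linarith
          linarith
        linarith
      have h9 := hT4 t ht4
      linarith
  have main : ∀ k, ∀ j, j + k + 1 = J → ∀ ε > 0, ∃ T > 0, ∀ t ≥ T, ∀ x,
      (c j + ε) * t ≤ infDist x U → u t x ≤ b j + ε := by
    intro k
    induction k with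
    | zero => exact fun j hj => step j (by omega) fun h => absurd h (by omega)
    | succ k ih => exact fun j hj => step j (by omega) fun _ => ih (j + 1) (by omega)
  exact fun j hj => main (J - 1 - j) j (by omega)

end Pool.Agent.H58.RF
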