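import Pool.Agent.H91.RF.TargetsA

/-! Module TE4: components of speed at least `cst` have a minimal length. -/

open MeasureTheory Set Filter Topology Metric
open Pool.Agent.H91.RD Pool.Agent.H91.RF

namespace Pool.Agent.H58.RF

lemma fp_eq_deriv (f : ℝ → ℝ) {s : ℝ} (hs : s ∈ Ioo (0 : ℝ) 1) : fp f s = deriv f s :=
  derivWithin_of_mem_nhds (Icc_mem_nhds hs.1 hs.2)

theorem TE4 (hYEX : T_YEX) : T_TE4 := by
  intro f K cst hR hL hc0
  have hcont : ContinuousOn (fp f) (Icc 0 1) :=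
    hR.smooth.continuousOn_derivWithin (uniqueDiffOn_Icc zero_lt_one) le_rfl
  have huc := isCompact_Icc.uniformContinuousOn_of_continuous hcont
  rw [Metric.uniformContinuousOn_iff] at huc
  obtain ⟨δ, hδ, hd⟩ := huc (cst ^ 2 / 16) (by positivity)
  refine ⟨δ, hδ, ?_⟩
  intro b c β y hb0 hb1 hfb hE hcst hβ0 hβb hpos hy0 hfβ
  by_contra hlt
  push Not at hlt
  have hc : 0 < c := hE.cpos
  have hfc : ContinuousOn f (Icc 0 1) := hR.smooth.continuousOn
  have hsub : Icc β b ⊆ Icc 0 1 := Icc_subset_Icc hβ0 hb1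
  obtain ⟨ζ, hζ, hζ0⟩ := exists_deriv_eq_zero hβb (hfc.mono hsub) (by rw [hfb, hfβ])
  have hζI : ζ ∈ Ioo (0 : ℝ) 1 := ⟨hβ0.trans_lt hζ.1, hζ.2.trans_le hb1⟩
  have hζ1 : fp f ζ = 0 := by rw [fp_eq_deriv f hζI, hζ0]
  -- the slope
  have hslope : ∀ s ∈ Ioo β b, deriv f s ≤ c ^ 2 / 16 := by
    intro s hs
    have hsI : s ∈ Ioo (0 : ℝ) 1 := ⟨hβ0.trans_lt hs.1, hs.2.trans_le hb1⟩
    rw [← fp_eq_deriv f hsI]
    have h1 := hd s (Ioo_subset_Icc_self hsI) ζ (Ioo_subset_Icc_self hζI) (by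
      rw [Real.dist_eq, abs_lt]
      constructor <;> linarith [hs.1, hs.2, hζ.1, hζ.2])
    rw [Real.dist_eq, hζ1, sub_zero] at h1
    have h2 : cst ^ 2 ≤ c ^ 2 := by
      exact pow_le_pow_left₀ hc0.le hcst 2
    linarith [le_abs_self (fp f s)]
  have hdiff : DifferentiableOn ℝ f (Ioo β b) := by
    intro s hs
    have hsI : s ∈ Ioo (0 : ℝ) 1 := ⟨hβ0.trans_lt hs.1, hs.2.trans_le hb1⟩
    exact ((hR.smooth.differentiableOn (by norm_num)) s
      (Ioo_subset_Icc_self hsI)).differentiableAt (Icc_mem_nhds hsI.1 hsI.2) |>.differentiableWithinAt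
  have hmv : ∀ s ∈ Icc β b, f s ≤ c ^ 2 / 16 * (s - β) := by
    intro s hs
    have h1 := (convex_Icc β b).image_sub_le_mul_sub_of_deriv_le (hfc.mono hsub)
      (by rw [interior_Icc]; exact hdiff) (C := c ^ 2 / 16)
      (by rw [interior_Icc]; exact hslope) β (left_mem_Icc.2 hβb.le) s hs hs.1
    rw [hfβ] at h1
    linarith
  -- the comparison
  obtain ⟨y', hy'⟩ := hYEX f K b (7 / 8 * c) hL hb0 hb1 hfb (by positivity)
  have hbel := hE.below (7 / 8 * c) (by positivity) (by linarith) y' hy'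
  obtain ⟨hy'0, hy'c, hy'd⟩ := hy'
  set Q : ℝ → ℝ := fun τ => c ^ 2 / 8 * (b - β - τ) ^ 2 with hQ
  have hQc : Continuous Q := by
    rw [hQ]
    fun_prop
  set S : Set ℝ := Icc 0 (b - β) ∩ {τ | 0 ≤ y' τ - Q τ} with hS
  have hcc : ContinuousOn (fun τ => y' τ - Q τ) (Icc 0 (b - β)) :=
    (hy'c.mono (Icc_subset_Icc_right (by linarith))).sub hQc.continuousOn
  have hSc : IsCompact S := by
    have : IsClosed (Icc 0 (b - β) ∩ (fun τ => y' τ - Q τ) ⁻¹' Ici 0) :=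
      hcc.preimage_isClosed_of_isClosed isClosed_Icc isClosed_Ici
    exact isCompact_Icc.of_isClosed_subset this inter_subset_left
  have hbb : 0 < b - β := by linarith
  have hend : 0 < y' (b - β) := hbel _ ⟨hbb, by linarith⟩
  have hSne : S.Nonempty := by
    refine ⟨b - β, right_mem_Icc.2 hbb.le, ?_⟩
    change 0 ≤ y' (b - β) - c ^ 2 / 8 * (b - β - (b - β)) ^ 2
    rw [sub_self]
    simpa using hend.le
  obtain ⟨τ0, hτ0, hmin⟩ := hSc.exists_isLeast hSne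
  have hlow : ∀ τ, 0 ≤ τ → τ < τ0 → y' τ < Q τ := by
    intro τ h1 h2
    by_contra hc2
    push Not at hc2
    have h3 : τ ∈ S := ⟨⟨h1, h2.le.trans hτ0.1.2⟩, sub_nonneg.2 hc2⟩
    exact absurd (hmin h3) (not_le.2 h2)
  have hτpos : 0 < τ0 := by
    rcases hτ0.1.1.lt_or_eq with h | h
    · exact h
    · exfalso
      have h1 := hτ0.2
      rw [← h] at h1
      change 0 ≤ y' 0 - c ^ 2 / 8 * (b - β - 0) ^ 2 at h1
      rw [hy'0] at h1
      have : 0 < c ^ 2 / 8 * (b - β - 0) ^ 2 := by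
        rw [sub_zero]
        positivity
      linarith
  have heq : y' τ0 = Q τ0 := by
    refine le_antisymm ?_ (sub_nonneg.1 hτ0.2)
    have h1 : Tendsto (fun τ => y' τ - Q τ) (𝓝[<] τ0) (𝓝 (y' τ0 - Q τ0)) := by
      have h2 := hcc τ0 hτ0.1
      refine (h2.mono_left ?_)
      refine nhdsWithin_le_iff.2 ?_
      filter_upwards [Ioo_mem_nhdsLT hτpos] with τ hτ
      exact ⟨hτ.1.le, hτ.2.le.trans hτ0.1.2⟩
    have h3 : y' τ0 - Q τ0 ≤ 0 := by
      refine le_of_tendsto h1 ?_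
      filter_upwards [Ioo_mem_nhdsLT hτpos] with τ hτ
      linarith [hlow τ hτ.1.le hτ.2]
    linarith
  have hτlt : τ0 < b - β := by
    rcases hτ0.1.2.lt_or_eq with h | h
    · exact h
    · exfalso
      rw [h] at heq
      have : Q (b - β) = 0 := by
        change c ^ 2 / 8 * (b - β - (b - β)) ^ 2 = 0
        rw [sub_self]
        ring
      linarith
  set L0 : ℝ := c / 2 * (b - β - τ0) with hL0
  have hL0p : 0 < L0 := by
    rw [hL0]
    have : 0 < b - β - τ0 := by linarith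
    positivity
  have hsq : √(2 * max (y' τ0) 0) = L0 := by
    have h1 : 2 * max (y' τ0) 0 = L0 ^ 2 := by
      rw [heq]
      have h2 : Q τ0 = L0 ^ 2 / 2 := by
        change c ^ 2 / 8 * (b - β - τ0) ^ 2 = (c / 2 * (b - β - τ0)) ^ 2 / 2
        ring
      rw [h2, max_eq_left (by positivity)]
      ring
    rw [h1, Real.sqrt_sq hL0p.le]
  have hd1 := hy'd τ0 ⟨hτpos, by linarith⟩
  rw [hsq] at hd1
  have hd2 : HasDerivAt Q (-(c ^ 2 / 4 * (b - β - τ0))) τ0 := by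
    have h1 : HasDerivAt (fun τ : ℝ => b - β - τ) (-1) τ0 := by
      simpa using (hasDerivAt_id τ0).const_sub (b - β)
    have h2 := (h1.pow 2).const_mul (c ^ 2 / 8)
    refine h2.congr_deriv ?_
    simp only [Nat.cast_ofNat]
    ring
  have hd3 := hd1.sub hd2
  have hneg : f (b - τ0) - 7 / 8 * c * L0 - -(c ^ 2 / 4 * (b - β - τ0)) < 0 := by
    have h1 := hmv (b - τ0) ⟨by linarith, by linarith⟩
    have h2 : c ^ 2 / 16 * (b - τ0 - β) = c / 8 * L0 := by
      rw [hL0]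
      ring
    have h3 : c ^ 2 / 4 * (b - β - τ0) = c / 2 * L0 := by
      rw [hL0]
      ring
    rw [h2] at h1
    rw [h3]
    have h4 : 0 < c * L0 := by positivity
    linarith
  -- contradiction
  have hev : ∀ᶠ τ in 𝓝[<] τ0, 0 < y' τ - Q τ := by
    have h1 := hd3.tendsto_slope
    have h2 : ∀ᶠ τ in 𝓝[≠] τ0, slope (fun τ => y' τ - Q τ) τ0 τ < 0 := by
      exact h1 (Iio_mem_nhds hneg)
    have h3 : 𝓝[<] τ0 ≤ 𝓝[≠] τ0 := nhdsWithin_mono _ fun τ (hτ : τ < τ0) => hτ.ne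
    filter_upwards [h3 h2, self_mem_nhdsWithin] with τ hτ1 hτ2
    rw [slope_def_field] at hτ1
    have h4 : τ - τ0 < 0 := sub_neg.2 hτ2
    have h5 : 0 < (y' τ - Q τ) - (y' τ0 - Q τ0) := by
      by_contra hc3
      push Not at hc3
      exact absurd (div_nonneg_of_nonpos hc3 h4.le) (not_le.2 hτ1)
    rw [heq, sub_self, sub_zero] at h5
    exact h5
  obtain ⟨τ, hτ1, hτ2⟩ := (hev.and (Ioo_mem_nhdsLT hτpos)).exists
  linarith [hlow τ hτ2.1.le hτ2.2]

end Pool.Agent.H58.RF
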