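import Pool.Agent.H91.RF.TargetsR

/-! Module WBK: small levels move at most with the speed `cc + ε`. -/

open MeasureTheory Set Filter Topology Metric
open Pool.Agent.H91.RD Pool.Agent.H91.RF

namespace Pool.Agent.H58.RF

/-- a classical solution is strictly differentiable in both variables together -/
lemma sol_strict {N : ℕ} {f : ℝ → ℝ} {U : Set (E N)} {u : ℝ → E N → ℝ} (h : IsSol f U u)
    {t : ℝ} (ht : 0 < t) (x : E N) :
    HasStrictFDerivAt (fun p : ℝ × E N => u p.1 p.2)
      (((1 : ℝ →L[ℝ] ℝ).smulRight (deriv (fun s => u s x) t)).coprod (fderiv ℝ (u t) x)) (t, x) := by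
  have hopen : IsOpen (Ioi (0 : ℝ) ×ˢ (univ : Set (E N))) := isOpen_Ioi.prod isOpen_univ
  have hmem : (t, x) ∈ Ioi (0 : ℝ) ×ˢ (univ : Set (E N)) := ⟨ht, mem_univ _⟩
  have hnhds := hopen.mem_nhds hmem
  have key := hasStrictFDerivAt_uncurry_coprod (𝕜 := ℝ) (u := (t, x)) (f := u)
    (f₁ := fun a b => (1 : ℝ →L[ℝ] ℝ).smulRight (deriv (fun s => u s b) a))
    (f₂ := fun a b => fderiv ℝ (u a) b) ?_ ?_ ?_ ?_
  · exact key
  · filter_upwards [hnhds] with v hv
    have h1 := (h.dt v.1 hv.1 v.2).hasDerivAt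
    exact h1.hasFDerivAt
  · filter_upwards [hnhds] with v hv
    exact ((h.c2 v.1 hv.1).differentiable (by norm_num) v.2).hasFDerivAt
  · have h1 : ContinuousAt (fun p : ℝ × E N => deriv (fun s => u s p.2) p.1) (t, x) :=
      h.cont_dt.continuousAt hnhds
    have h2 : Continuous (fun r : ℝ => (1 : ℝ →L[ℝ] ℝ).smulRight r) :=
      (ContinuousLinearMap.smulRightL ℝ ℝ ℝ (1 : ℝ →L[ℝ] ℝ)).continuous
    exact h2.continuousAt.comp h1
  · exact h.cont_dx.continuousAt hnhds

/-- the derivative along a backward line -/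
lemma sol_line {N : ℕ} {f : ℝ → ℝ} {U : Set (E N)} {u : ℝ → E N → ℝ} (h : IsSol f U u)
    (t a s : ℝ) (x e : E N) (hs : 0 < t - s) :
    HasDerivAt (fun r => u (t - r) (x - (a * r) • e))
      (-dt u (t - s) (x - (a * s) • e) + a * -dx u e (t - s) (x - (a * s) • e)) s := by
  have h1 := (sol_strict h hs (x - (a * s) • e)).hasFDerivAt
  have h2 : HasDerivAt (fun r : ℝ => ((t - r, x - (a * r) • e) : ℝ × E N))
      ((-1, -(a • e)) : ℝ × E N) s := by
    refine HasDerivAt.prodMk ?_ ?_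
    · have := (hasDerivAt_id s).const_sub t
      exact this
    · have h3 : HasDerivAt (fun r : ℝ => (a * r) • e) (a • e) s := by
        have h4 : HasDerivAt (fun r : ℝ => a * r) (a * 1) s := (hasDerivAt_id s).const_mul a
        rw [mul_one] at h4
        exact h4.smul_const e
      have := h3.const_sub x
      exact this
  have h3 := h1.comp_hasDerivAt s h2
  have h4 : ((1 : ℝ →L[ℝ] ℝ).smulRight (deriv (fun r => u r (x - (a * s) • e)) (t - s))).coprod
      (fderiv ℝ (u (t - s)) (x - (a * s) • e)) ((-1, -(a • e)) : ℝ × E N) =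
      -dt u (t - s) (x - (a * s) • e) + a * -dx u e (t - s) (x - (a * s) • e) := by
    unfold dt dx
    simp [ContinuousLinearMap.coprod_apply, map_neg, map_smul]
  rw [h4] at h3
  exact h3

/-- a function which is nondecreasing where it is small stays above small levels -/
lemma stay_above {g g' : ℝ → ℝ} {S lam th : ℝ} (hlam : th ≤ lam)
    (hd : ∀ s ∈ Icc 0 S, HasDerivAt g (g' s) s)
    (hg : ∀ s ∈ Icc 0 S, g s ≤ lam → 0 ≤ g' s) (h0 : th ≤ g 0) :
    ∀ s ∈ Icc 0 S, th ≤ g s := by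
  intro s hs
  by_contra hcon
  push Not at hcon
  have hcont : ContinuousOn g (Icc 0 s) := fun r hr =>
    (hd r ⟨hr.1, hr.2.trans hs.2⟩).continuousAt.continuousWithinAt
  have hcl : IsClosed (Icc 0 s ∩ g ⁻¹' Ici th) :=
    hcont.preimage_isClosed_of_isClosed isClosed_Icc isClosed_Ici
  have hcomp : IsCompact (Icc 0 s ∩ g ⁻¹' Ici th) := isCompact_Icc.of_isClosed_subset hcl
    inter_subset_left
  have hne : (Icc 0 s ∩ g ⁻¹' Ici th).Nonempty := ⟨0, ⟨le_rfl, hs.1⟩, h0⟩
  obtain ⟨r, hr, hmax⟩ := hcomp.exists_isGreatest hne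
  have hr1 : r ∈ Icc 0 s := hr.1
  have hr2 : th ≤ g r := hr.2
  have hlt : ∀ q ∈ Ioc r s, g q < th := by
    intro q hq
    by_contra hc
    push Not at hc
    have := hmax ⟨⟨hr1.1.trans hq.1.le, hq.2⟩, hc⟩
    linarith [hq.1]
  have hmono : MonotoneOn g (Icc r s) := by
    refine monotoneOn_of_deriv_nonneg (convex_Icc r s) ?_ ?_ ?_
    · exact hcont.mono (Icc_subset_Icc_left hr1.1)
    · rw [interior_Icc]
      intro q hq
      exact (hd q ⟨hr1.1.trans hq.1.le, hq.2.le.trans hs.2⟩).differentiableAt.differentiableWithinAt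
    · rw [interior_Icc]
      intro q hq
      have hq0 : q ∈ Icc 0 S := ⟨hr1.1.trans hq.1.le, hq.2.le.trans hs.2⟩
      rw [(hd q hq0).deriv]
      exact hg q hq0 ((hlt q ⟨hq.1, hq.2.le⟩).le.trans hlam)
  have := hmono (left_mem_Icc.2 hr1.2) (right_mem_Icc.2 hr1.2) hr1.2
  linarith

theorem WBK (hGEOK : T_GEOK) : T_WBK := by
  intro N f K cc C0 C9 η0 U u hstg hcc _ hvac ε hε
  obtain ⟨lam, hlam, η, hη, T, hT, hV⟩ := hvac ε hε
  obtain ⟨ρ1, hρ1, T1, hT1, hG⟩ := hGEOK N U (cc / 2) hstg.condC hstg.ne (by linarith) η hη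
  -- choice of ρ
  set D : ℝ := 1 + 2 * cc + ε with hD
  have hDpos : 0 < D := by positivity
  have hDcc : cc + ε ≤ D := by linarith
  obtain ⟨ρ, hρ0, hρA, hρB, hρC, hρE⟩ : ∃ ρ : ℝ, 0 < ρ ∧ ρ ≤ ρ1 ∧ ρ ≤ 1 / 2 ∧ ρ * D ≤ η / 2 ∧
      ρ * D ≤ ρ1 ∧ ρ ≤ cc / 2 := by
    refine ⟨min (min ρ1 (1 / 2)) (min (min (η / 2 / D) (ρ1 / D)) (cc / 2)), ?_, ?_, ?_, ?_, ?_, ?_⟩
    · have : 0 < η / 2 / D := by positivity
      have : 0 < ρ1 / D := by positivity
      refine lt_min (lt_min hρ1 (by norm_num)) (lt_min (lt_min ?_ ?_) ?_) <;> positivity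
    · exact (min_le_left _ _).trans (min_le_left _ _)
    · exact (min_le_left _ _).trans (min_le_right _ _)
    · have h1 : min (min ρ1 (1 / 2)) (min (min (η / 2 / D) (ρ1 / D)) (cc / 2)) ≤ η / 2 / D :=
        (min_le_right _ _).trans ((min_le_left _ _).trans (min_le_left _ _))
      calc _ ≤ η / 2 / D * D := mul_le_mul_of_nonneg_right h1 hDpos.le
        _ = η / 2 := div_mul_cancel₀ _ hDpos.ne'
    · have h1 : min (min ρ1 (1 / 2)) (min (min (η / 2 / D) (ρ1 / D)) (cc / 2)) ≤ ρ1 / D :=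
        (min_le_right _ _).trans ((min_le_left _ _).trans (min_le_right _ _))
      calc _ ≤ ρ1 / D * D := mul_le_mul_of_nonneg_right h1 hDpos.le
        _ = ρ1 := div_mul_cancel₀ _ hDpos.ne'
    · exact (min_le_right _ _).trans (min_le_right _ _)
  obtain ⟨hρF, hρH⟩ := hρE
  refine ⟨lam, hlam, ρ, hρ0, max (2 * T) T1, by positivity, ?_⟩
  intro t ht x e hN hdist θ0 _ hθlam hux
  have ht2T : 2 * T ≤ t := (le_max_left _ _).trans ht
  have htT1 : T1 ≤ t := (le_max_right _ _).trans ht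
  have htpos : 0 < t := by linarith
  have hρt : 0 ≤ ρ * t := by positivity
  have hN1 : NDir U ρ1 x e := by
    obtain ⟨he, ξ, e0, h1, h2⟩ := hN
    exact ⟨he, ξ, e0, h1, h2.trans hρA⟩
  have hb : cc / 2 * t ≤ infDist x U := by
    have h1 := (abs_le.1 hdist).1
    have h2 : ρ * t ≤ cc / 2 * t := mul_le_mul_of_nonneg_right hρH htpos.le
    nlinarith
  have hhalf : ∀ s ∈ Icc 0 (ρ * t), t / 2 ≤ t - s := by
    intro s hs
    have h1 : ρ * t ≤ 1 / 2 * t := mul_le_mul_of_nonneg_right hρB htpos.le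
    linarith [hs.2]
  have hder : ∀ s ∈ Icc 0 (ρ * t), HasDerivAt (fun r => u (t - r) (x - ((cc + ε) * r) • e))
      (-dt u (t - s) (x - ((cc + ε) * s) • e) +
        (cc + ε) * -dx u e (t - s) (x - ((cc + ε) * s) • e)) s := by
    intro s hs
    refine sol_line hstg.sol.sol t (cc + ε) s x e ?_
    have := hhalf s hs
    linarith
  have h0 : θ0 ≤ (fun r => u (t - r) (x - ((cc + ε) * r) • e)) 0 := by
    simp only [sub_zero, mul_zero, zero_smul]
    exact hux
  refine stay_above hθlam hder ?_ h0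
  intro s hs hle
  have hs0 : 0 ≤ s := hs.1
  have hts := hhalf s hs
  set y : E N := x - ((cc + ε) * s) • e with hy
  have hdy : dist y x = (cc + ε) * s := by
    rw [dist_eq_norm]
    have h1 : y - x = -(((cc + ε) * s) • e) := by rw [hy]; abel
    rw [h1, norm_neg, norm_smul, hN.1, mul_one, Real.norm_of_nonneg (by positivity)]
  have hdy2 : dist y x ≤ (cc + ε) * (ρ * t) := by
    rw [hdy]
    exact mul_le_mul_of_nonneg_left hs.2 (by positivity)
  have hND : NDir U η y e := by
    refine hG t htT1 x e hN1 hb y (hdy2.trans ?_)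
    calc (cc + ε) * (ρ * t) ≤ D * (ρ * t) := mul_le_mul_of_nonneg_right hDcc hρt
      _ = ρ * D * t := by ring
      _ ≤ ρ1 * t := mul_le_mul_of_nonneg_right hρF htpos.le
  have hinf : |infDist y U - infDist x U| ≤ dist y x := by
    rw [abs_le]
    constructor
    · have := infDist_le_infDist_add_dist (s := U) (x := x) (y := y)
      rw [dist_comm] at this
      linarith
    · have := infDist_le_infDist_add_dist (s := U) (x := y) (y := x)
      linarith
  have hrat : |infDist y U - cc * (t - s)| ≤ η * (t - s) := by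
    have h1 : |infDist y U - cc * (t - s)| ≤ |infDist y U - infDist x U| +
        |infDist x U - cc * t| + cc * s := by
      have h2 : infDist y U - cc * (t - s) = (infDist y U - infDist x U) +
          (infDist x U - cc * t) + cc * s := by ring
      rw [h2]
      refine (abs_add_le _ _).trans ?_
      have h3 := abs_add_le (infDist y U - infDist x U) (infDist x U - cc * t)
      rw [abs_of_nonneg (by positivity : (0 : ℝ) ≤ cc * s)]
      linarith
    have h2 : cc * s ≤ cc * (ρ * t) := mul_le_mul_of_nonneg_left hs.2 hcc.le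
    have h3 : |infDist y U - cc * (t - s)| ≤ ρ * D * t := by
      calc _ ≤ (cc + ε) * (ρ * t) + ρ * t + cc * (ρ * t) := by linarith
        _ = ρ * D * t := by rw [hD]; ring
    have h4 : ρ * D * t ≤ η / 2 * t := mul_le_mul_of_nonneg_right hρC htpos.le
    have h5 : η / 2 * t = η * (t / 2) := by ring
    have h6 : η * (t / 2) ≤ η * (t - s) := mul_le_mul_of_nonneg_left hts hη.le
    linarith
  have hres := (hV (t - s) (by linarith) y e hND hrat hle).1
  linarith

end Pool.Agent.H58.RF
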